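import Mathlib

/-!
PROJECT SH / ALLQ (MP_274814_nt), block D2, D3: the quaternion form of the unitary group of
`h = x1 conj y1 - kap x2 conj y2` over a field `K` with involution `c`, density of the rational
points, existence of vectors with prescribed signs, the fixed point and its multiplier.
-/

set_option autoImplicit false

namespace Pool.Agent.Helper94.SH

open Complex

section ring

variable {A B : Type*} [CommRing A] [CommRing B]

/-- the hermitian form `x1 c y1 - kap x2 c y2` -/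
def frm (c : A →+* A) (κ : A) (x y : A × A) : A := x.1 * c y.1 - κ * (x.2 * c y.2)

/-- the reduced norm -/
def nrd (c : A →+* A) (κ : A) (b : A × A) : A := b.1 * c b.1 - κ * (b.2 * c b.2)

/-- the matrix with columns `b` and its orthogonal vector -/
def gam (c : A →+* A) (κ : A) (b : A × A) : Matrix (Fin 2) (Fin 2) A :=
  !![b.1, κ * c b.2; b.2, c b.1]

/-- matrix times column -/
def act (M : Matrix (Fin 2) (Fin 2) A) (x : A × A) : A × A :=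
  (M 0 0 * x.1 + M 0 1 * x.2, M 1 0 * x.1 + M 1 1 * x.2)

theorem frm_self (c : A →+* A) (κ : A) (x : A × A) : frm c κ x x = nrd c κ x := rfl

@[simp] theorem gam_00 (c : A →+* A) (κ : A) (b : A × A) : gam c κ b 0 0 = b.1 := rfl
@[simp] theorem gam_01 (c : A →+* A) (κ : A) (b : A × A) : gam c κ b 0 1 = κ * c b.2 := rfl
@[simp] theorem gam_10 (c : A →+* A) (κ : A) (b : A × A) : gam c κ b 1 0 = b.2 := rfl
@[simp] theorem gam_11 (c : A →+* A) (κ : A) (b : A × A) : gam c κ b 1 1 = c b.1 := rfl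

theorem act_mul (M N : Matrix (Fin 2) (Fin 2) A) (x : A × A) : act (M * N) x = act M (act N x) := by
  unfold act
  simp only [Matrix.mul_apply, Fin.sum_univ_two]
  refine Prod.ext ?_ ?_ <;> simp only <;> ring

theorem det_gam (c : A →+* A) (κ : A) (b : A × A) : (gam c κ b).det = nrd c κ b := by
  rw [Matrix.det_fin_two]
  simp only [gam_00, gam_01, gam_10, gam_11, nrd]
  ring

theorem gam_mul (c : A →+* A) (κ : A) (hc : ∀ x, c (c x) = x) (hκ : c κ = κ) (a b : A × A) :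
    gam c κ a * gam c κ b = gam c κ (act (gam c κ a) b) := by
  ext i j
  fin_cases i <;> fin_cases j <;>
    simp [Matrix.mul_apply, Fin.sum_univ_two, act, map_add, map_mul, hc, hκ] <;> ring

theorem nrd_act (c : A →+* A) (κ : A) (hc : ∀ x, c (c x) = x) (hκ : c κ = κ) (a b : A × A) :
    nrd c κ (act (gam c κ a) b) = nrd c κ a * nrd c κ b := by
  rw [← det_gam, ← gam_mul c κ hc hκ, Matrix.det_mul, det_gam, det_gam]

theorem frm_act (c : A →+* A) (κ : A) (hc : ∀ x, c (c x) = x) (hκ : c κ = κ) (a x y : A × A) :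
    frm c κ (act (gam c κ a) x) (act (gam c κ a) y) = nrd c κ a * frm c κ x y := by
  simp only [frm, nrd, act, gam_00, gam_01, gam_10, gam_11, map_add, map_mul, hc, hκ]
  ring

/-- image of a pair under a ring hom -/
def pmap (s : A →+* B) (b : A × A) : B × B := (s b.1, s b.2)

theorem nrd_map (s : A →+* B) (c : A →+* A) (d : B →+* B) (h : ∀ x, s (c x) = d (s x)) (κ : A)
    (b : A × A) : s (nrd c κ b) = nrd d (s κ) (pmap s b) := by
  simp only [nrd, pmap, map_sub, map_mul, h]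

end ring

section complex

/-- complex conjugation -/
noncomputable abbrev cc : ℂ →+* ℂ := starRingEnd ℂ

theorem nrd_cc (κ : ℝ) (b : ℂ × ℂ) :
    nrd cc (κ : ℂ) b = ((‖b.1‖ ^ 2 - κ * ‖b.2‖ ^ 2 : ℝ) : ℂ) := by
  unfold nrd
  rw [Complex.mul_conj, Complex.mul_conj, Complex.normSq_eq_norm_sq, Complex.normSq_eq_norm_sq]
  push_cast
  ring

/-- the action on lines: the line through `(1, z)` goes to the line through `(1, mob M z)` -/
noncomputable def mob (M : Matrix (Fin 2) (Fin 2) ℂ) (z : ℂ) : ℂ :=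
  (M 1 0 + M 1 1 * z) / (M 0 0 + M 0 1 * z)

/-- `M` is an isometry for `|x1|^2 - kap |x2|^2` (values on the columns) -/
structure IsU (κ : ℝ) (M : Matrix (Fin 2) (Fin 2) ℂ) : Prop where
  n1 : ‖M 0 0‖ ^ 2 - κ * ‖M 1 0‖ ^ 2 = 1
  n2 : ‖M 0 1‖ ^ 2 - κ * ‖M 1 1‖ ^ 2 = -κ
  n3 : M 0 0 * cc (M 0 1) - κ * (M 1 0 * cc (M 1 1)) = 0

theorem IsU.of_gam {κ : ℝ} {b : ℂ × ℂ} (hb : ‖b.1‖ ^ 2 - κ * ‖b.2‖ ^ 2 = 1) :
    IsU κ (gam cc (κ : ℂ) b) where
  n1 := by simpa using hb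
  n2 := by
    rw [gam_01, gam_11, norm_mul, Complex.norm_real, RCLike.norm_conj, RCLike.norm_conj, mul_pow,
      Real.norm_eq_abs, sq_abs]
    linear_combination (-κ) * hb
  n3 := by
    simp only [gam_00, gam_01, gam_10, gam_11, map_mul, Complex.conj_conj, Complex.conj_ofReal]
    ring

theorem IsU.norm {κ : ℝ} {M : Matrix (Fin 2) (Fin 2) ℂ} (hM : IsU κ M) (x y : ℂ) :
    ‖M 0 0 * x + M 0 1 * y‖ ^ 2 - κ * ‖M 1 0 * x + M 1 1 * y‖ ^ 2 = ‖x‖ ^ 2 - κ * ‖y‖ ^ 2 := by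
  have key : ∀ a b c d : ℂ, ‖a * x + b * y‖ ^ 2 - κ * ‖c * x + d * y‖ ^ 2 =
      (‖a‖ ^ 2 - κ * ‖c‖ ^ 2) * ‖x‖ ^ 2 + (‖b‖ ^ 2 - κ * ‖d‖ ^ 2) * ‖y‖ ^ 2 +
        2 * ((a * cc b - κ * (c * cc d)) * (x * cc y)).re := by
    intro a b c d
    simp only [← Complex.normSq_eq_norm_sq, Complex.normSq_apply, Complex.add_re, Complex.add_im,
      Complex.mul_re, Complex.mul_im, Complex.sub_re, Complex.sub_im, Complex.conj_re,
      Complex.conj_im, Complex.ofReal_re, Complex.ofReal_im]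
    ring
  rw [key, hM.n1, hM.n2, hM.n3]
  simp
  ring

theorem IsU.norm_one {κ : ℝ} {M : Matrix (Fin 2) (Fin 2) ℂ} (hM : IsU κ M) (z : ℂ) :
    ‖M 0 0 + M 0 1 * z‖ ^ 2 - κ * ‖M 1 0 + M 1 1 * z‖ ^ 2 = 1 - κ * ‖z‖ ^ 2 := by
  have := hM.norm 1 z
  simpa using this

theorem IsU.den_ne {κ : ℝ} (hκ : 0 < κ) {M : Matrix (Fin 2) (Fin 2) ℂ} (hM : IsU κ M) {z : ℂ}
    (hz : κ * ‖z‖ ^ 2 < 1) : M 0 0 + M 0 1 * z ≠ 0 := by
  intro h
  have h1 := hM.norm_one z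
  rw [h, norm_zero] at h1
  nlinarith [mul_nonneg hκ.le (sq_nonneg ‖M 1 0 + M 1 1 * z‖)]

theorem IsU.mob_norm {κ : ℝ} (hκ : 0 < κ) {M : Matrix (Fin 2) (Fin 2) ℂ} (hM : IsU κ M) {z : ℂ}
    (hz : κ * ‖z‖ ^ 2 < 1) :
    1 - κ * ‖mob M z‖ ^ 2 = (1 - κ * ‖z‖ ^ 2) / ‖M 0 0 + M 0 1 * z‖ ^ 2 := by
  have h0 := hM.den_ne hκ hz
  have h2 : ‖M 0 0 + M 0 1 * z‖ ^ 2 ≠ 0 := pow_ne_zero _ (norm_ne_zero_iff.2 h0)
  rw [← hM.norm_one z, mob, norm_div, div_pow, sub_div, div_self h2]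
  ring

theorem IsU.mob_mem {κ : ℝ} (hκ : 0 < κ) {M : Matrix (Fin 2) (Fin 2) ℂ} (hM : IsU κ M) {z : ℂ}
    (hz : κ * ‖z‖ ^ 2 < 1) : κ * ‖mob M z‖ ^ 2 < 1 := by
  have h := hM.mob_norm hκ hz
  have h2 : 0 < ‖M 0 0 + M 0 1 * z‖ ^ 2 := by
    have := norm_pos_iff.2 (hM.den_ne hκ hz)
    positivity
  have h3 : 0 < (1 - κ * ‖z‖ ^ 2) / ‖M 0 0 + M 0 1 * z‖ ^ 2 := div_pos (by linarith) h2
  linarith

theorem mob_mul {M N : Matrix (Fin 2) (Fin 2) ℂ} {z : ℂ} (hN : N 0 0 + N 0 1 * z ≠ 0) :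
    mob (M * N) z = mob M (mob N z) := by
  have h1 : M 0 0 + M 0 1 * ((N 1 0 + N 1 1 * z) / (N 0 0 + N 0 1 * z)) =
      ((M * N) 0 0 + (M * N) 0 1 * z) / (N 0 0 + N 0 1 * z) := by
    rw [Matrix.mul_apply, Matrix.mul_apply, Fin.sum_univ_two, Fin.sum_univ_two, eq_div_iff hN,
      add_mul, mul_assoc, div_mul_cancel₀ _ hN]
    ring
  have h2 : M 1 0 + M 1 1 * ((N 1 0 + N 1 1 * z) / (N 0 0 + N 0 1 * z)) =
      ((M * N) 1 0 + (M * N) 1 1 * z) / (N 0 0 + N 0 1 * z) := by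
    rw [Matrix.mul_apply, Matrix.mul_apply, Fin.sum_univ_two, Fin.sum_univ_two, eq_div_iff hN,
      add_mul, mul_assoc, div_mul_cancel₀ _ hN]
    ring
  rw [mob, mob, mob, h1, h2, div_div_div_cancel_right₀ hN]

/-- the point of the group over `z` -/
noncomputable def bz (κ : ℝ) (z : ℂ) : ℂ × ℂ :=
  (((Real.sqrt (1 - κ * ‖z‖ ^ 2))⁻¹ : ℝ), ((Real.sqrt (1 - κ * ‖z‖ ^ 2))⁻¹ : ℝ) * z)

theorem bz_norm {κ : ℝ} {z : ℂ} (hz : κ * ‖z‖ ^ 2 < 1) :
    ‖(bz κ z).1‖ ^ 2 - κ * ‖(bz κ z).2‖ ^ 2 = 1 := by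
  have h : 0 < 1 - κ * ‖z‖ ^ 2 := by linarith
  simp only [bz, norm_mul, Complex.norm_real, Real.norm_eq_abs, mul_pow, sq_abs, inv_pow,
    Real.sq_sqrt h.le]
  field_simp

theorem mob_bz {κ : ℝ} {z : ℂ} (hz : κ * ‖z‖ ^ 2 < 1) : mob (gam cc (κ : ℂ) (bz κ z)) 0 = z := by
  have h : 0 < Real.sqrt (1 - κ * ‖z‖ ^ 2) := Real.sqrt_pos.2 (by linarith)
  have h2 : ((Real.sqrt (1 - κ * ‖z‖ ^ 2) : ℝ) : ℂ) ≠ 0 := by
    exact_mod_cast h.ne'
  simp only [mob, gam_00, gam_01, gam_10, gam_11, mul_zero, add_zero, bz]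
  push_cast
  field_simp

end complex

end Pool.Agent.Helper94.SH
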