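import Pool.Agent.Helper94.SH.Qd

/-!
PROJECT SH / ALLQ (MP_274814_nt), blocks D2 and D3: density of the rational points of the group of
norm one elements; vectors with prescribed signs; the fixed point and its multiplier.
-/

set_option autoImplicit false

namespace Pool.Agent.Helper94.SH

open Complex Filter Topology

section refl

variable {A B : Type*} [Field A] [Field B]

/-- `e1` reflected in `w`, times a scalar: the norm one vector attached to `w` -/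
def rfl1 (c : A →+* A) (κ : A) (w : A × A) : A × A :=
  (1 - (w.1 + c w.1) / nrd c κ w * w.1, -((w.1 + c w.1) / nrd c κ w * w.2))

theorem nrd_rfl1 (c : A →+* A) (κ : A) (hc : ∀ x, c (c x) = x) (hκ : c κ = κ) (w : A × A)
    (hw : nrd c κ w ≠ 0) : nrd c κ (rfl1 c κ w) = 1 := by
  have hn : c (nrd c κ w) = nrd c κ w := by
    simp only [nrd, map_sub, map_mul, hc, hκ]
    ring
  have ht : c ((w.1 + c w.1) / nrd c κ w) = (w.1 + c w.1) / nrd c κ w := by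
    rw [map_div₀, hn, map_add, hc, add_comm]
  obtain ⟨t, ht'⟩ : ∃ t, t = (w.1 + c w.1) / nrd c κ w := ⟨_, rfl⟩
  have h1 : t * nrd c κ w = w.1 + c w.1 := by rw [ht', div_mul_cancel₀ _ hw]
  have h2 : nrd c κ (rfl1 c κ w) = 1 - t * (w.1 + c w.1) + t * (t * nrd c κ w) := by
    unfold rfl1
    rw [← ht'] at ht ⊢
    simp only [nrd, map_sub, map_mul, map_neg, map_one, ht]
    ring
  rw [h2, h1]
  ring

theorem rfl1_map (s : A →+* B) (c : A →+* A) (d : B →+* B) (h : ∀ x, s (c x) = d (s x)) (κ : A)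
    (w : A × A) : pmap s (rfl1 c κ w) = rfl1 d (s κ) (pmap s w) := by
  unfold rfl1 pmap
  simp only [map_sub, map_mul, map_neg, map_one, map_div₀, map_add, h, nrd_map s c d h]
  rfl

end refl

theorem rfl1_inv {κ : ℝ} {b : ℂ × ℂ} (hb : nrd cc (κ : ℂ) b = 1)
    (hb1 : nrd cc (κ : ℂ) (b.1 - 1, b.2) ≠ 0) : rfl1 cc (κ : ℂ) (b.1 - 1, b.2) = b := by
  have h1 : nrd cc (κ : ℂ) (b.1 - 1, b.2) = -((b.1 - 1) + cc (b.1 - 1)) := by
    simp only [nrd] at hb ⊢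
    simp only [map_sub, map_one]
    linear_combination hb
  have h2 : ((b.1 - 1) + cc (b.1 - 1)) / nrd cc (κ : ℂ) (b.1 - 1, b.2) = -1 := by
    rw [div_eq_iff hb1, h1]
    ring
  refine Prod.ext ?_ ?_
  · simp only [rfl1, h2]
    ring
  · simp only [rfl1, h2]
    ring

theorem continuousAt_rfl1 {κ : ℝ} {w : ℂ × ℂ} (hw : nrd cc (κ : ℂ) w ≠ 0) :
    ContinuousAt (rfl1 cc (κ : ℂ)) w := by
  have h1 : Continuous fun w : ℂ × ℂ => nrd cc (κ : ℂ) w := by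
    unfold nrd
    have := Complex.continuous_conj
    fun_prop
  have h2 : Continuous fun w : ℂ × ℂ => w.1 + cc w.1 := by
    have := Complex.continuous_conj
    fun_prop
  have h3 : ContinuousAt (fun w : ℂ × ℂ => (w.1 + cc w.1) / nrd cc (κ : ℂ) w) w :=
    h2.continuousAt.div h1.continuousAt hw
  unfold rfl1
  exact (continuousAt_const.sub (h3.mul continuous_fst.continuousAt)).prodMk
    (h3.mul continuous_snd.continuousAt).neg

section dense

variable {K : Type*} [Field K] {ι : Type*} [Fintype ι] [Nonempty ι]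

/-- D2: norm one elements `b` of `K^2` with `b2/b1` close to a given point at all places. -/
theorem dense_norm_one (c : K →+* K) (hc : ∀ x, c (c x) = x) (s : ι → K →+* ℂ)
    (hs : ∀ v x, s v (c x) = cc (s v x)) (hd : DenseRange fun (x : K) (v : ι) => s v x)
    (κ : K) (hκ : c κ = κ) (kr : ι → ℝ) (hkr : ∀ v, s v κ = (kr v : ℂ))
    (z : ι → ℂ) (hz : ∀ v, kr v * ‖z v‖ ^ 2 < 1) (ε : ℝ) (hε : 0 < ε) :
    ∃ b : K × K, nrd c κ b = 1 ∧ (∀ v, s v b.1 ≠ 0) ∧ ∀ v, ‖s v b.2 / s v b.1 - z v‖ < ε := by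
  classical
  have hl : ∀ v, 0 < Real.sqrt (1 - kr v * ‖z v‖ ^ 2) := fun v =>
    Real.sqrt_pos.2 (by have := hz v; linarith)
  -- the target
  obtain ⟨b0, hb0⟩ : ∃ b0 : ι → ℂ × ℂ, ∀ v, b0 v = (-(bz (kr v) (z v)).1, -(bz (kr v) (z v)).2) :=
    ⟨_, fun v => rfl⟩
  have hb1 : ∀ v, nrd cc (kr v : ℂ) (b0 v) = 1 := by
    intro v
    rw [nrd_cc, hb0, norm_neg, norm_neg, bz_norm (hz v)]
    norm_num
  have hb2 : ∀ v, nrd cc (kr v : ℂ) ((b0 v).1 - 1, (b0 v).2) ≠ 0 := by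
    intro v
    have h1 : nrd cc (kr v : ℂ) ((b0 v).1 - 1, (b0 v).2) = 2 - (b0 v).1 - cc (b0 v).1 := by
      have := hb1 v
      simp only [nrd] at this ⊢
      simp only [map_sub, map_one]
      linear_combination this
    rw [h1, hb0]
    simp only [bz, map_neg, Complex.conj_ofReal]
    intro h2
    have h3 := congrArg Complex.re h2
    simp only [Complex.sub_re, Complex.neg_re, Complex.ofReal_re, Complex.re_ofNat,
      Complex.zero_re] at h3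
    have h4 := inv_pos.2 (hl v)
    linarith
  have hb3 : ∀ v, (b0 v).1 ≠ 0 := by
    intro v
    rw [hb0]
    simp only [bz, ne_eq, neg_eq_zero, Complex.ofReal_eq_zero, inv_eq_zero]
    exact (hl v).ne'
  have hb4 : ∀ v, (b0 v).2 / (b0 v).1 = z v := by
    intro v
    rw [div_eq_iff (hb3 v), hb0]
    simp only [bz]
    ring
  -- continuity
  obtain ⟨w0, hw0⟩ : ∃ w0 : ι → ℂ × ℂ, ∀ v, w0 v = ((b0 v).1 - 1, (b0 v).2) := ⟨_, fun v => rfl⟩
  have hc1 : ∀ v, ∀ᶠ w in 𝓝 (w0 v), nrd cc (kr v : ℂ) w ≠ 0 ∧ (rfl1 cc (kr v : ℂ) w).1 ≠ 0 ∧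
      ‖(rfl1 cc (kr v : ℂ) w).2 / (rfl1 cc (kr v : ℂ) w).1 - z v‖ < ε := by
    intro v
    have h1 : ContinuousAt (rfl1 cc (kr v : ℂ)) (w0 v) := continuousAt_rfl1 (by
      rw [hw0]; exact hb2 v)
    have h2 : rfl1 cc (kr v : ℂ) (w0 v) = b0 v := by
      rw [hw0]
      exact rfl1_inv (hb1 v) (hb2 v)
    have h3 : ContinuousAt (fun w => (rfl1 cc (kr v : ℂ) w).1) (w0 v) :=
      continuous_fst.continuousAt.comp h1
    have h4 : ContinuousAt (fun w => (rfl1 cc (kr v : ℂ) w).2) (w0 v) :=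
      continuous_snd.continuousAt.comp h1
    have h5 : ContinuousAt (fun w => (rfl1 cc (kr v : ℂ) w).2 / (rfl1 cc (kr v : ℂ) w).1)
        (w0 v) := h4.div h3 (by rw [h2]; exact hb3 v)
    have h6 : Continuous fun w : ℂ × ℂ => nrd cc (kr v : ℂ) w := by
      unfold nrd
      have := Complex.continuous_conj
      fun_prop
    have h7 : ∀ᶠ w in 𝓝 (w0 v), nrd cc (kr v : ℂ) w ≠ 0 :=
      h6.continuousAt.eventually_ne (by rw [hw0]; exact hb2 v)
    have h8 : ∀ᶠ w in 𝓝 (w0 v), (rfl1 cc (kr v : ℂ) w).1 ≠ 0 :=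
      h3.eventually_ne (by rw [h2]; exact hb3 v)
    have h9 : ∀ᶠ w in 𝓝 (w0 v), ‖(rfl1 cc (kr v : ℂ) w).2 / (rfl1 cc (kr v : ℂ) w).1 - z v‖ < ε := by
      have h10 : ContinuousAt
          (fun w => ‖(rfl1 cc (kr v : ℂ) w).2 / (rfl1 cc (kr v : ℂ) w).1 - z v‖) (w0 v) :=
        (h5.sub continuousAt_const).norm
      refine h10.eventually_lt_const ?_
      beta_reduce
      rw [h2, hb4, sub_self, norm_zero]
      exact hε
    exact h7.and (h8.and h9)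
  have hc2 : ∀ v, ∃ δ > 0, ∀ w : ℂ × ℂ, ‖w.1 - (w0 v).1‖ < δ → ‖w.2 - (w0 v).2‖ < δ →
      nrd cc (kr v : ℂ) w ≠ 0 ∧ (rfl1 cc (kr v : ℂ) w).1 ≠ 0 ∧
        ‖(rfl1 cc (kr v : ℂ) w).2 / (rfl1 cc (kr v : ℂ) w).1 - z v‖ < ε := by
    intro v
    obtain ⟨δ, hδ, h1⟩ := Metric.eventually_nhds_iff.1 (hc1 v)
    refine ⟨δ, hδ, fun w h2 h3 => h1 ?_⟩
    rw [Prod.dist_eq, max_lt_iff, dist_eq_norm, dist_eq_norm]
    exact ⟨h2, h3⟩
  choose δ hδ hδ2 using hc2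
  obtain ⟨η, hη, hη2⟩ : ∃ η > 0, ∀ v, η ≤ δ v := by
    obtain ⟨v0, hv0⟩ := Finite.exists_min δ
    exact ⟨δ v0, hδ v0, hv0⟩
  obtain ⟨x, hx⟩ := hd.exists_dist_lt (fun v => (w0 v).1) hη
  obtain ⟨y, hy⟩ := hd.exists_dist_lt (fun v => (w0 v).2) hη
  have hx2 : ∀ v, ‖s v x - (w0 v).1‖ < δ v := by
    intro v
    rw [← dist_eq_norm, dist_comm]
    exact ((dist_le_pi_dist (fun v => (w0 v).1) (fun v => s v x) v).trans_lt hx).trans_le (hη2 v)
  have hy2 : ∀ v, ‖s v y - (w0 v).2‖ < δ v := by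
    intro v
    rw [← dist_eq_norm, dist_comm]
    exact ((dist_le_pi_dist (fun v => (w0 v).2) (fun v => s v y) v).trans_lt hy).trans_le (hη2 v)
  have key := fun v => hδ2 v (pmap (s v) (x, y)) (hx2 v) (hy2 v)
  have hmap : ∀ v, pmap (s v) (rfl1 c κ (x, y)) = rfl1 cc (kr v : ℂ) (pmap (s v) (x, y)) := by
    intro v
    rw [rfl1_map (s v) c cc (hs v), hkr]
  have hnon : ∀ v, nrd cc (kr v : ℂ) (pmap (s v) (x, y)) ≠ 0 := fun v => (key v).1
  refine ⟨rfl1 c κ (x, y), ?_, ?_, ?_⟩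
  · obtain ⟨v⟩ := ‹Nonempty ι›
    refine nrd_rfl1 c κ hc hκ _ ?_
    intro h
    refine hnon v ?_
    rw [← hkr, ← nrd_map (s v) c cc (hs v), h, map_zero]
  · intro v
    have h1 := (key v).2.1
    rw [← hmap] at h1
    exact h1
  · intro v
    have h1 := (key v).2.2
    rw [← hmap] at h1
    exact h1

/-- D3: `b` in `K` with prescribed signs of `1 - kap_v |b|^2` at the places with `kap_v > 0`. -/
theorem exists_signs (s : ι → K →+* ℂ) (hd : DenseRange fun (x : K) (v : ι) => s v x)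
    (kr : ι → ℝ) (P : ι → Prop) :
    ∃ b : K, ∀ v, (P v → 0 < 1 - kr v * ‖s v b‖ ^ 2) ∧
      (¬ P v → 0 < kr v → 1 - kr v * ‖s v b‖ ^ 2 < 0) := by
  classical
  obtain ⟨t, ht⟩ : ∃ t : ι → ℂ, ∀ v, t v = if P v ∨ ¬ 0 < kr v then 0 else
      ((Real.sqrt (2 / kr v) : ℝ) : ℂ) := ⟨_, fun v => rfl⟩
  have h1 : ∀ v, ∀ᶠ x in 𝓝 (t v), (P v → 0 < 1 - kr v * ‖x‖ ^ 2) ∧
      (¬ P v → 0 < kr v → 1 - kr v * ‖x‖ ^ 2 < 0) := by
    intro v
    have hcont : Continuous fun x : ℂ => 1 - kr v * ‖x‖ ^ 2 := by fun_prop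
    by_cases hP : P v
    · have h2 : 0 < 1 - kr v * ‖t v‖ ^ 2 := by
        rw [ht, if_pos (Or.inl hP), norm_zero]
        norm_num
      exact (hcont.continuousAt.eventually_const_lt h2).mono
        fun x hx => ⟨fun _ => hx, fun h => absurd hP h⟩
    · by_cases hk : 0 < kr v
      · have h2 : 1 - kr v * ‖t v‖ ^ 2 < 0 := by
          rw [ht, if_neg (by tauto), Complex.norm_real, Real.norm_eq_abs, sq_abs,
            Real.sq_sqrt (by positivity), mul_div_cancel₀ _ hk.ne']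
          norm_num
        exact (hcont.continuousAt.eventually_lt_const h2).mono
          fun x hx => ⟨fun h => absurd h hP, fun _ _ => hx⟩
      · exact Eventually.of_forall fun x => ⟨fun h => absurd h hP, fun _ h => absurd h hk⟩
  have h2 : ∀ v, ∃ δ > 0, ∀ x, ‖x - t v‖ < δ → (P v → 0 < 1 - kr v * ‖x‖ ^ 2) ∧
      (¬ P v → 0 < kr v → 1 - kr v * ‖x‖ ^ 2 < 0) := by
    intro v
    obtain ⟨δ, hδ, h3⟩ := Metric.eventually_nhds_iff.1 (h1 v)
    exact ⟨δ, hδ, fun x hx => h3 (by rw [dist_eq_norm]; exact hx)⟩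
  choose δ hδ hδ2 using h2
  obtain ⟨v0, hv0⟩ := Finite.exists_min δ
  obtain ⟨x, hx⟩ := hd.exists_dist_lt t (hδ v0)
  refine ⟨x, fun v => hδ2 v _ ?_⟩
  rw [← dist_eq_norm, dist_comm]
  exact ((dist_le_pi_dist t (fun v => s v x) v).trans_lt hx).trans_le (hv0 v)

end dense

/-! ### the orthogonal pair `f1 = (1, b)`, `f2 = (kap c b, 1)` and the map `diag (zeta, 1)` -/

section pair

variable {A B : Type*} [Field A] [Field B]

/-- the matrix of `diag (ζ, 1)` in the basis `f1 = (1, b)`, `f2 = (κ c b, 1)` -/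
def dg (c : A →+* A) (κ b ζ : A) : Matrix (Fin 2) (Fin 2) A :=
  !![(ζ - κ * b * c b) / (1 - κ * b * c b), κ * c b * (1 - ζ) / (1 - κ * b * c b);
     -(b * (1 - ζ)) / (1 - κ * b * c b), (1 - κ * b * c b * ζ) / (1 - κ * b * c b)]

theorem frm_pair (c : A →+* A) (κ : A) (hc : ∀ x, c (c x) = x) (hκ : c κ = κ) (b : A) :
    frm c κ (1, b) (κ * c b, 1) = 0 := by
  simp only [frm, map_mul, hc, hκ, map_one]
  ring

theorem nrd_f1 (c : A →+* A) (κ : A) (b : A) : nrd c κ (1, b) = 1 - κ * b * c b := by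
  simp only [nrd, map_one]
  ring

theorem nrd_f2 (c : A →+* A) (κ : A) (hc : ∀ x, c (c x) = x) (hκ : c κ = κ) (b : A) :
    nrd c κ (κ * c b, 1) = -κ * (1 - κ * b * c b) := by
  simp only [nrd, map_mul, hc, hκ, map_one]
  ring

theorem dg_f1 (c : A →+* A) (κ b ζ : A) (hn : 1 - κ * b * c b ≠ 0) :
    act (dg c κ b ζ) (1, b) = (ζ, ζ * b) := by
  refine Prod.ext ?_ ?_
  · change (ζ - κ * b * c b) / (1 - κ * b * c b) * 1 +
      κ * c b * (1 - ζ) / (1 - κ * b * c b) * b = ζ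
    rw [mul_one, div_mul_eq_mul_div, ← add_div, div_eq_iff hn]
    ring
  · change -(b * (1 - ζ)) / (1 - κ * b * c b) * 1 +
      (1 - κ * b * c b * ζ) / (1 - κ * b * c b) * b = ζ * b
    rw [mul_one, div_mul_eq_mul_div, ← add_div, div_eq_iff hn]
    ring

theorem dg_f2 (c : A →+* A) (κ b ζ : A) (hn : 1 - κ * b * c b ≠ 0) :
    act (dg c κ b ζ) (κ * c b, 1) = (κ * c b, 1) := by
  refine Prod.ext ?_ ?_
  · change (ζ - κ * b * c b) / (1 - κ * b * c b) * (κ * c b) +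
      κ * c b * (1 - ζ) / (1 - κ * b * c b) * 1 = κ * c b
    rw [mul_one, div_mul_eq_mul_div, ← add_div, div_eq_iff hn]
    ring
  · change -(b * (1 - ζ)) / (1 - κ * b * c b) * (κ * c b) +
      (1 - κ * b * c b * ζ) / (1 - κ * b * c b) * 1 = 1
    rw [mul_one, div_mul_eq_mul_div, ← add_div, div_eq_iff hn]
    ring

end pair

/-! ### the fixed point -/

/-- the line of `C^2` on which `|x1|^2 - kap |x2|^2` is positive: `f1` or `f2` -/
noncomputable def fixz (κ : ℝ) (b : ℂ) : ℂ :=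
  if 0 < 1 - κ * ‖b‖ ^ 2 then b else ((κ : ℂ) * cc b)⁻¹

theorem fixz_mem {κ : ℝ} (hκ : 0 < κ) {b : ℂ} (hb : 1 - κ * ‖b‖ ^ 2 ≠ 0) :
    κ * ‖fixz κ b‖ ^ 2 < 1 := by
  unfold fixz
  split_ifs with h
  · linarith
  · have h1 : 1 < κ * ‖b‖ ^ 2 := by
      rcases lt_or_gt_of_ne hb with h2 | h2
      · linarith
      · exact absurd h2 h
    have h3 : 0 < ‖b‖ ^ 2 := by
      by_contra h4
      have h5 : ‖b‖ ^ 2 = 0 := le_antisymm (not_lt.1 h4) (sq_nonneg _)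
      rw [h5] at h1
      linarith
    rw [norm_inv, norm_mul, Complex.norm_real, RCLike.norm_conj, inv_pow, mul_pow,
      Real.norm_eq_abs, sq_abs, ← div_eq_mul_inv, div_lt_one (by positivity)]
    nlinarith

theorem one_sub_ne {κ : ℝ} {b : ℂ} (hb : 1 - κ * ‖b‖ ^ 2 ≠ 0) :
    1 - (κ : ℂ) * b * cc b ≠ 0 := by
  rw [mul_assoc, Complex.mul_conj, Complex.normSq_eq_norm_sq]
  intro h
  refine hb ?_
  have h2 : ((1 - κ * ‖b‖ ^ 2 : ℝ) : ℂ) = 0 := by
    push_cast at h ⊢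
    exact h
  exact_mod_cast h2

/-- `dg` is an isometry when `|ζ| = 1` -/
theorem dg_isU {κ : ℝ} {b ζ : ℂ} (hb : 1 - κ * ‖b‖ ^ 2 ≠ 0) (hζ : ‖ζ‖ = 1) :
    IsU κ (dg cc (κ : ℂ) b ζ) := by
  have hn := one_sub_ne hb
  have hz : ζ * cc ζ = 1 := by
    rw [Complex.mul_conj, Complex.normSq_eq_norm_sq, hζ]
    norm_num
  have hnn : cc (1 - (κ : ℂ) * b * cc b) = 1 - (κ : ℂ) * b * cc b := by
    simp only [map_sub, map_one, map_mul, Complex.conj_ofReal, Complex.conj_conj]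
    ring
  have e00 : dg cc (κ : ℂ) b ζ 0 0 = (ζ - κ * b * cc b) / (1 - κ * b * cc b) := rfl
  have e01 : dg cc (κ : ℂ) b ζ 0 1 = κ * cc b * (1 - ζ) / (1 - κ * b * cc b) := rfl
  have e10 : dg cc (κ : ℂ) b ζ 1 0 = -(b * (1 - ζ)) / (1 - κ * b * cc b) := rfl
  have e11 : dg cc (κ : ℂ) b ζ 1 1 = (1 - κ * b * cc b * ζ) / (1 - κ * b * cc b) := rfl
  have nsq : ∀ w : ℂ, ((‖w‖ ^ 2 : ℝ) : ℂ) = w * cc w := by
    intro w
    rw [Complex.mul_conj, Complex.normSq_eq_norm_sq]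
  refine ⟨?_, ?_, ?_⟩
  · have h1 : (((‖dg cc (κ : ℂ) b ζ 0 0‖ ^ 2 - κ * ‖dg cc (κ : ℂ) b ζ 1 0‖ ^ 2 : ℝ)) : ℂ) = 1 := by
      push_cast
      rw [← Complex.ofReal_pow, ← Complex.ofReal_pow, nsq, nsq, e00, e10, map_div₀, map_div₀, hnn,
        div_mul_div_comm, div_mul_div_comm, mul_div_assoc', ← sub_div,
        div_eq_iff (mul_ne_zero hn hn)]
      simp only [map_sub, map_one, map_mul, map_neg, Complex.conj_ofReal, Complex.conj_conj]
      linear_combination (1 - (κ : ℂ) * b * cc b) * hz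
    exact_mod_cast h1
  · have h1 : (((‖dg cc (κ : ℂ) b ζ 0 1‖ ^ 2 - κ * ‖dg cc (κ : ℂ) b ζ 1 1‖ ^ 2 : ℝ)) : ℂ) = -κ := by
      push_cast
      rw [← Complex.ofReal_pow, ← Complex.ofReal_pow, nsq, nsq, e01, e11, map_div₀, map_div₀, hnn,
        div_mul_div_comm, div_mul_div_comm, mul_div_assoc', ← sub_div,
        div_eq_iff (mul_ne_zero hn hn)]
      simp only [map_sub, map_one, map_mul, map_neg, Complex.conj_ofReal, Complex.conj_conj]
      linear_combination ((κ : ℂ) * κ * b * cc b - (κ : ℂ) * (κ * b * cc b) * (κ * b * cc b)) * hz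
    exact_mod_cast h1
  · rw [e00, e01, e10, e11, map_div₀, map_div₀, hnn, div_mul_div_comm, div_mul_div_comm,
      mul_div_assoc', ← sub_div, div_eq_zero_iff]
    left
    simp only [map_sub, map_one, map_mul, map_neg, Complex.conj_ofReal, Complex.conj_conj]
    linear_combination (-(κ : ℂ) * b * (1 - (κ : ℂ) * b * cc b)) * hz

theorem det_dg {A : Type*} [Field A] (c : A →+* A) (κ b ζ : A) (hn : 1 - κ * b * c b ≠ 0) :
    (dg c κ b ζ).det = ζ := by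
  rw [Matrix.det_fin_two]
  change (ζ - κ * b * c b) / (1 - κ * b * c b) * ((1 - κ * b * c b * ζ) / (1 - κ * b * c b)) -
    κ * c b * (1 - ζ) / (1 - κ * b * c b) * (-(b * (1 - ζ)) / (1 - κ * b * c b)) = ζ
  rw [div_mul_div_comm, div_mul_div_comm, ← sub_div, div_eq_iff (mul_ne_zero hn hn)]
  ring

theorem hasDerivAt_mob {M : Matrix (Fin 2) (Fin 2) ℂ} {z : ℂ} (hz : M 0 0 + M 0 1 * z ≠ 0) :
    HasDerivAt (mob M) (M.det / (M 0 0 + M 0 1 * z) ^ 2) z := by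
  have h1 : HasDerivAt (fun z => M 1 0 + M 1 1 * z) (M 1 1) z := by
    simpa using ((hasDerivAt_id z).const_mul (M 1 1)).const_add (M 1 0)
  have h2 : HasDerivAt (fun z => M 0 0 + M 0 1 * z) (M 0 1) z := by
    simpa using ((hasDerivAt_id z).const_mul (M 0 1)).const_add (M 0 0)
  have h3 := h1.div h2 hz
  have h4 : M.det = M 1 1 * (M 0 0 + M 0 1 * z) - (M 1 0 + M 1 1 * z) * M 0 1 := by
    rw [Matrix.det_fin_two]
    ring
  rw [h4]
  exact h3

theorem dg_fix {κ : ℝ} {b ζ : ℂ} (hb : 1 - κ * ‖b‖ ^ 2 ≠ 0) :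
    (dg cc (κ : ℂ) b ζ 0 0 + dg cc (κ : ℂ) b ζ 0 1 * fixz κ b =
        if 0 < 1 - κ * ‖b‖ ^ 2 then ζ else 1) ∧
    dg cc (κ : ℂ) b ζ 1 0 + dg cc (κ : ℂ) b ζ 1 1 * fixz κ b =
        (if 0 < 1 - κ * ‖b‖ ^ 2 then ζ else 1) * fixz κ b := by
  have hn := one_sub_ne hb
  unfold fixz
  split_ifs with h
  · have h1 := dg_f1 cc (κ : ℂ) b ζ hn
    have h2 := congrArg Prod.fst h1
    have h3 := congrArg Prod.snd h1
    simp only [act, mul_one] at h2 h3
    exact ⟨h2, h3⟩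
  · have h1 := dg_f2 cc (κ : ℂ) b ζ hn
    have h2 := congrArg Prod.fst h1
    have h3 := congrArg Prod.snd h1
    simp only [act, mul_one] at h2 h3
    have h4 : (κ : ℂ) * cc b ≠ 0 := by
      intro h5
      refine h ?_
      rcases mul_eq_zero.1 h5 with h6 | h6
      · have : κ = 0 := by exact_mod_cast h6
        rw [this]
        norm_num
      · have : b = 0 := by simpa using h6
        rw [this]
        norm_num
    constructor
    · have h5 : (dg cc (κ : ℂ) b ζ 0 0 + dg cc (κ : ℂ) b ζ 0 1 * ((κ : ℂ) * cc b)⁻¹) *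
          ((κ : ℂ) * cc b) = 1 * ((κ : ℂ) * cc b) := by
        rw [add_mul, mul_assoc, inv_mul_cancel₀ h4, mul_one, one_mul, h2]
      exact mul_right_cancel₀ h4 h5
    · have h5 : (dg cc (κ : ℂ) b ζ 1 0 + dg cc (κ : ℂ) b ζ 1 1 * ((κ : ℂ) * cc b)⁻¹) *
          ((κ : ℂ) * cc b) = (1 * ((κ : ℂ) * cc b)⁻¹) * ((κ : ℂ) * cc b) := by
        rw [add_mul, mul_assoc, one_mul, inv_mul_cancel₀ h4, mul_one, h3]
      exact mul_right_cancel₀ h4 h5

theorem mob_dg_fixz {κ : ℝ} {b ζ : ℂ} (hb : 1 - κ * ‖b‖ ^ 2 ≠ 0) (hζ : ζ ≠ 0) :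
    mob (dg cc (κ : ℂ) b ζ) (fixz κ b) = fixz κ b := by
  obtain ⟨h1, h2⟩ := dg_fix (ζ := ζ) hb
  rw [mob, h1, h2, mul_div_cancel_left₀]
  split_ifs
  · exact hζ
  · exact one_ne_zero

/-- D3: the multiplier of `diag (ζ, 1)` at its fixed point is `ζ⁻¹` or `ζ`. -/
theorem hasDerivAt_dg_fixz {κ : ℝ} {b ζ : ℂ} (hb : 1 - κ * ‖b‖ ^ 2 ≠ 0) (hζ : ζ ≠ 0) :
    HasDerivAt (mob (dg cc (κ : ℂ) b ζ)) (if 0 < 1 - κ * ‖b‖ ^ 2 then ζ⁻¹ else ζ) (fixz κ b) := by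
  obtain ⟨h1, -⟩ := dg_fix (ζ := ζ) hb
  have h2 : dg cc (κ : ℂ) b ζ 0 0 + dg cc (κ : ℂ) b ζ 0 1 * fixz κ b ≠ 0 := by
    rw [h1]
    split_ifs
    · exact hζ
    · exact one_ne_zero
  have h3 := hasDerivAt_mob h2
  rw [det_dg cc _ b ζ (one_sub_ne hb), h1] at h3
  convert h3 using 1
  split_ifs
  · field_simp
  · simp

end Pool.Agent.Helper94.SH
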