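import Pool.Agent.Helper96.SH.Sb
import Pool.Agent.Helper96.SH.Ca

/-!
PROJECT SH / ALLQ (MP_274814_nt), block C2: uniqueness of Riemann's theta function.
-/

set_option autoImplicit false

namespace Pool.Agent.Helper94.SH

open Complex MeasureTheory Set Pool.Agent.Helper96.SH
open scoped Real Topology

variable {ι : Type} [Fintype ι]

/-- the box `a < x <= a + 1` -/
def Box (a : ι → ℝ) : Set (ι → ℝ) := {x | ∀ i, x i ∈ Ioc (a i) (a i + 1)}

theorem measurableSet_Box (a : ι → ℝ) : MeasurableSet (Box a) :=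
  MeasurableSet.univ_pi' fun _ => measurableSet_Ioc

theorem volume_Box (a : ι → ℝ) : volume (Box a) ≠ ⊤ := by
  have h : Box a ⊆ Set.pi Set.univ fun i => Icc (a i) (a i + 1) :=
    fun x hx i _ => Ioc_subset_Icc_self (hx i)
  exact ((isCompact_univ_pi fun i => isCompact_Icc).measure_lt_top.trans_le'
    (measure_mono h)).ne

omit [Fintype ι] in
/-- lift of a periodic function to the torus -/
theorem exists_lift (φ : (ι → ℝ) → ℂ) (hφ : ∀ (x : ι → ℝ) (n : ι → ℤ), φ (fun i => x i + n i) = φ x) :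
    ∃ Φ : UnitAddTorus ι → ℂ, ∀ x : ι → ℝ, Φ (fun i => (x i : UnitAddCircle)) = φ x := by
  refine ⟨fun t => φ fun i => (Quotient.out (t i) : ℝ), fun x => ?_⟩
  have h : ∀ i, ∃ n : ℤ, (Quotient.out (x i : UnitAddCircle) : ℝ) = x i + n := by
    intro i
    obtain ⟨⟨g, hg⟩, h1⟩ := QuotientAddGroup.mk_out_eq_add (AddSubgroup.zmultiples (1 : ℝ)) (x i)
    obtain ⟨n, hn⟩ := AddSubgroup.mem_zmultiples_iff.1 hg
    refine ⟨n, h1.trans ?_⟩
    change x i + g = x i + n
    rw [← hn]
    simp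
  choose n hn using h
  have h2 : (fun i => (Quotient.out (x i : UnitAddCircle) : ℝ)) = fun i => x i + n i :=
    funext hn
  change φ (fun i => (Quotient.out (x i : UnitAddCircle) : ℝ)) = φ x
  rw [h2, hφ]

theorem per_box (φ : (ι → ℝ) → ℂ) (hφ : ∀ (x : ι → ℝ) (n : ι → ℤ), φ (fun i => x i + n i) = φ x)
    (a : ι → ℝ) : ∫ x in Box 0, φ (x + a) = ∫ x in Box 0, φ x := by
  obtain ⟨Φ, hΦ⟩ := exists_lift φ hφ
  have h1 := (UnitAddTorus.integral_preimage Φ a).symm.trans (UnitAddTorus.integral_preimage Φ 0)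
  simp only [hΦ] at h1
  have h2 : ∫ x in Box 0, φ (x + a) = ∫ x in Box a, φ x := by
    have h3 := (measurePreserving_add_right (volume : Measure (ι → ℝ)) a).setIntegral_preimage_emb
      (measurableEmbedding_addRight a) φ (Box a)
    rw [← h3]
    congr 2
    ext x
    simp only [Box, Set.mem_ofPred_eq, mem_preimage, Pi.add_apply, Pi.zero_apply, mem_Ioc]
    refine forall_congr' fun i => ?_
    constructor
    · rintro ⟨h4, h5⟩
      constructor <;> linarith
    · rintro ⟨h4, h5⟩
      constructor <;> linarith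
  rw [h2]
  exact h1

omit [Fintype ι] in
theorem continuous_cR : Continuous (cR : (ι → ℝ) → (ι → ℂ)) := by
  unfold cR
  fun_prop

theorem norm_cR_le {x : ι → ℝ} (hx : x ∈ Box 0) : ‖cR x‖ ≤ 1 := by
  refine (pi_norm_le_iff_of_nonneg zero_le_one).2 fun i => ?_
  have h := hx i
  simp only [Pi.zero_apply, zero_add, mem_Ioc] at h
  rw [cR, Complex.norm_real, Real.norm_eq_abs, abs_of_pos h.1]
  exact h.2

theorem hasFDerivAt_box {φ : (ι → ℂ) → ℂ} (hφ : Differentiable ℂ φ) (w : ι → ℂ) :
    HasFDerivAt (fun w => ∫ x in Box 0, φ (cR x + w)) (∫ x in Box 0, fderiv ℂ φ (cR x + w)) w := by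
  classical
  have han : AnalyticOnNhd ℂ φ univ :=
    analyticOnNhd_of_differentiableOn isOpen_univ hφ.differentiableOn
  have hc1 : Continuous (fderiv ℂ φ) := by
    have h1 := han.fderiv
    exact continuousOn_univ.1 h1.continuousOn
  have hc0 : Continuous φ := hφ.continuous
  have hfin : IsFiniteMeasure (volume.restrict (Box (0 : ι → ℝ))) :=
    ⟨by rw [Measure.restrict_apply_univ]; exact (volume_Box 0).lt_top⟩
  obtain ⟨C, hC⟩ := (isCompact_closedBall (0 : ι → ℂ) (1 + (‖w‖ + 1))).exists_bound_of_continuousOn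
    hc1.continuousOn
  obtain ⟨C0, hC0⟩ := (isCompact_closedBall (0 : ι → ℂ) (1 + (‖w‖ + 1))).exists_bound_of_continuousOn
    hc0.continuousOn
  have hmem : ∀ x ∈ Box (0 : ι → ℝ), ∀ w' ∈ Metric.ball w 1,
      cR x + w' ∈ Metric.closedBall (0 : ι → ℂ) (1 + (‖w‖ + 1)) := by
    intro x hx w' hw'
    rw [mem_closedBall_zero_iff]
    refine (norm_add_le _ _).trans (add_le_add (norm_cR_le hx) ?_)
    have h1 : ‖w' - w‖ < 1 := by rwa [← dist_eq_norm]
    have h2 : ‖w'‖ ≤ ‖w‖ + ‖w' - w‖ := by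
      have := norm_add_le w (w' - w)
      rwa [add_sub_cancel] at this
    linarith
  refine hasFDerivAt_integral_of_dominated_of_fderiv_le (μ := volume.restrict (Box 0))
    (F := fun w x => φ (cR x + w)) (F' := fun w x => fderiv ℂ φ (cR x + w))
    (bound := fun _ => C) (Metric.ball_mem_nhds w one_pos) ?_ ?_ ?_ ?_ ?_ ?_
  · refine Filter.Eventually.of_forall fun w' => ?_
    exact (hc0.comp (continuous_cR.add continuous_const)).aestronglyMeasurable
  · refine Measure.integrableOn_of_bounded (M := C0) (volume_Box 0)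
      (hc0.comp (continuous_cR.add continuous_const)).aestronglyMeasurable ?_
    filter_upwards [ae_restrict_mem (measurableSet_Box 0)] with x hx
    exact hC0 _ (hmem x hx w (Metric.mem_ball_self one_pos))
  · exact (hc1.comp (continuous_cR.add continuous_const)).aestronglyMeasurable
  · filter_upwards [ae_restrict_mem (measurableSet_Box 0)] with x hx w' hw'
    exact hC _ (hmem x hx w' hw')
  · exact integrable_const C
  · refine Filter.Eventually.of_forall fun x w' _ => ?_
    have h1 := (hφ (cR x + w')).hasFDerivAt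
    have h2 : HasFDerivAt (fun w : ι → ℂ => cR x + w) (ContinuousLinearMap.id ℂ (ι → ℂ)) w' :=
      (hasFDerivAt_id w').const_add (cR x)
    exact h1.comp w' h2

/-- the mean value over the real torus does not depend on the (complex) translation -/
theorem box_const {φ : (ι → ℂ) → ℂ} (hφ : Differentiable ℂ φ)
    (hper : ∀ (z : ι → ℂ) (n : ι → ℤ), φ (z + cI n) = φ z) (w : ι → ℂ) :
    ∫ x in Box 0, φ (cR x + w) = ∫ x in Box 0, φ (cR x) := by
  obtain ⟨G, hG⟩ : ∃ G : (ι → ℂ) → ℂ, G = fun w => ∫ x in Box 0, φ (cR x + w) := ⟨_, rfl⟩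
  have hd : ∀ w, HasFDerivAt G (∫ x in Box 0, fderiv ℂ φ (cR x + w)) w := by
    intro w
    rw [hG]
    exact hasFDerivAt_box hφ w
  have hreal : ∀ (w : ι → ℂ) (a : ι → ℝ), G (w + cR a) = G w := by
    intro w a
    rw [hG]
    have h1 := per_box (fun x => φ (cR x + w)) (by
      intro x n
      have h2 : cR (fun i => x i + (n i : ℝ)) + w = (cR x + w) + cI n := by
        funext i
        simp only [cR, cI, Pi.add_apply]
        push_cast
        ring
      rw [h2, hper]) a
    refine Eq.trans ?_ h1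
    beta_reduce
    congr 1
    funext x
    congr 1
    funext i
    simp only [cR, Pi.add_apply]
    push_cast
    ring
  have hz : ∀ (w : ι → ℂ) (a : ι → ℝ), (∫ x in Box 0, fderiv ℂ φ (cR x + w)) (cR a) = 0 := by
    intro w a
    have h1 : HasDerivAt (fun t : ℂ => G (w + t • cR a))
        ((∫ x in Box 0, fderiv ℂ φ (cR x + w)) (cR a)) 0 := (hd w).hasLineDerivAt (cR a)
    have h2 : HasDerivAt (fun t : ℝ => G (w + (t : ℂ) • cR a))
        ((∫ x in Box 0, fderiv ℂ φ (cR x + w)) (cR a)) (0 : ℝ) := by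
      refine HasDerivAt.comp_ofReal (e := fun t : ℂ => G (w + t • cR a)) ?_
      rw [Complex.ofReal_zero]
      exact h1
    have h3 : (fun t : ℝ => G (w + (t : ℂ) • cR a)) = fun _ => G w := by
      funext t
      have h4 : (t : ℂ) • cR a = cR (t • a) := by
        funext i
        simp [cR]
      rw [h4, hreal]
    rw [h3] at h2
    exact h2.unique (hasDerivAt_const _ _)
  have hz2 : ∀ w, fderiv ℂ G w = 0 := by
    intro w
    rw [(hd w).fderiv]
    ext v
    have h1 : v = cR (fun i => (v i).re) + (I : ℂ) • cR (fun i => (v i).im) := by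
      funext i
      simp only [cR, Pi.add_apply, Pi.smul_apply, smul_eq_mul]
      rw [mul_comm]
      exact (Complex.re_add_im (v i)).symm
    rw [h1, map_add, map_smul, hz, hz]
    simp
  have h0 : G w = G 0 :=
    is_const_of_fderiv_eq_zero (𝕜 := ℂ) (fun w => (hd w).differentiableAt) hz2 w 0
  rw [hG] at h0
  simpa using h0

omit [Fintype ι] in
theorem exists_lift_continuous (φ : (ι → ℝ) → ℂ) (hc : Continuous φ)
    (hφ : ∀ (x : ι → ℝ) (n : ι → ℤ), φ (fun i => x i + n i) = φ x) :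
    ∃ Φ : C(UnitAddTorus ι, ℂ), ∀ x : ι → ℝ, Φ (fun i => (x i : UnitAddCircle)) = φ x := by
  obtain ⟨Φ, hΦ⟩ := exists_lift φ hφ
  have hq : IsOpenQuotientMap (Pi.map fun (_ : ι) (x : ℝ) => (x : UnitAddCircle)) :=
    IsOpenQuotientMap.piMap fun _ => QuotientAddGroup.isOpenQuotientMap_mk
  have h1 : Continuous Φ := by
    rw [hq.isQuotientMap.continuous_iff]
    have h2 : Φ ∘ (Pi.map fun (_ : ι) (x : ℝ) => (x : UnitAddCircle)) = φ := by
      funext x
      exact hΦ x
    rw [h2]
    exact hc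
  exact ⟨⟨Φ, h1⟩, hΦ⟩

theorem mFourier_coe (n : ι → ℤ) (x : ι → ℝ) :
    UnitAddTorus.mFourier n (fun i => (x i : UnitAddCircle)) =
      cexp (2 * π * I * dt (cI n) (cR x)) := by
  change (∏ i, fourier (n i) (x i : UnitAddCircle)) = _
  simp only [fourier_coe_apply]
  rw [← Complex.exp_sum]
  congr 1
  rw [dt, Finset.mul_sum]
  refine Finset.sum_congr rfl fun i _ => ?_
  simp only [cI, cR]
  push_cast
  ring

theorem dt_add_right (x y z : ι → ℂ) : dt x (y + z) = dt x y + dt x z := by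
  simp only [dt, Pi.add_apply, mul_add, Finset.sum_add_distrib]

theorem dt_cI_cI (n l : ι → ℤ) : dt (cI n) (cI l) = ((∑ i, n i * l i : ℤ) : ℂ) := by
  simp only [dt, cI]
  push_cast
  rfl

theorem dt_cI_mv (Z : Matrix ι ι ℂ) (n l : ι → ℤ) : dt (cI n) (mv Z (cI l)) = bl Z (cI n) (cI l) := by
  simp only [dt, mv, bl, Finset.mul_sum, mul_assoc]

/-- C2: the space of theta functions is one dimensional. -/
theorem th_unique_of_summable (Z : Matrix ι ι ℂ)
    (hsum : ∀ z : ι → ℂ, Summable fun n : ι → ℤ =>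
      cexp (π * I * bl Z (cI n) (cI n) + 2 * π * I * dt (cI n) z))
    {h : (ι → ℂ) → ℂ} (hd : Differentiable ℂ h)
    (h1 : ∀ z (l : ι → ℤ), h (z + cI l) = h z)
    (h2 : ∀ z (l : ι → ℤ), h (z + mv Z (cI l)) =
      cexp (-(π * I * bl Z (cI l) (cI l)) - 2 * π * I * dt (cI l) z) * h z) :
    ∃ c : ℂ, ∀ z, h z = c * th Z z := by
  obtain ⟨φ, hφ⟩ : ∃ φ : (ι → ℤ) → (ι → ℂ) → ℂ,
      ∀ n z, φ n z = h z * cexp (-(2 * π * I * dt (cI n) z)) := ⟨_, fun _ _ => rfl⟩
  have hφd : ∀ n, Differentiable ℂ (φ n) := by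
    intro n
    have h3 : φ n = fun z => h z * cexp (-(2 * π * I * dt (cI n) z)) := funext (hφ n)
    rw [h3]
    have h4 : Differentiable ℂ fun z : ι → ℂ => dt (cI n) z := by
      unfold dt
      fun_prop
    fun_prop
  have hint : ∀ k : ℤ, cexp (-(2 * π * I * (k : ℂ))) = 1 := by
    intro k
    rw [Complex.exp_eq_one_iff]
    exact ⟨-k, by push_cast; ring⟩
  have hφp : ∀ n z (l : ι → ℤ), φ n (z + cI l) = φ n z := by
    intro n z l
    rw [hφ, hφ, h1, dt_add_right, dt_cI_cI]
    have h3 : -(2 * π * I * (dt (cI n) z + ((∑ i, n i * l i : ℤ) : ℂ))) =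
        -(2 * π * I * dt (cI n) z) + -(2 * π * I * ((∑ i, n i * l i : ℤ) : ℂ)) := by ring
    rw [h3, Complex.exp_add, hint, mul_one]
  obtain ⟨a, ha⟩ : ∃ a : (ι → ℤ) → ℂ, ∀ n, a n = ∫ x in Box 0, φ n (cR x) := ⟨_, fun _ => rfl⟩
  have hshift : ∀ n w, ∫ x in Box 0, φ n (cR x + w) = a n := by
    intro n w
    rw [ha]
    exact box_const (hφd n) (hφp n) w
  have ha0 : ∀ l, a l = cexp (π * I * bl Z (cI l) (cI l)) * a 0 := by
    intro l
    have h3 : ∀ z, φ 0 (z + mv Z (cI l)) = cexp (-(π * I * bl Z (cI l) (cI l))) * φ l z := by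
      intro z
      rw [hφ, hφ, h2]
      have h4 : dt (cI (0 : ι → ℤ)) (z + mv Z (cI l)) = 0 := by
        simp [dt, cI]
      rw [h4, mul_zero, neg_zero, Complex.exp_zero, mul_one, sub_eq_add_neg, Complex.exp_add]
      ring
    have h5 := hshift 0 (mv Z (cI l))
    simp only [h3] at h5
    rw [MeasureTheory.integral_const_mul, ← ha] at h5
    rw [← h5, ← mul_assoc, ← Complex.exp_add, add_neg_cancel, Complex.exp_zero, one_mul]
  refine ⟨a 0, fun z => ?_⟩
  have hper : ∀ (x : ι → ℝ) (n : ι → ℤ), h (cR (fun i => x i + (n i : ℝ)) + z) = h (cR x + z) := by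
    intro x n
    have h3 : cR (fun i => x i + (n i : ℝ)) + z = (cR x + z) + cI n := by
      funext i
      simp only [cR, cI, Pi.add_apply]
      push_cast
      ring
    rw [h3, h1]
  obtain ⟨F, hF⟩ := exists_lift_continuous (fun x => h (cR x + z))
    (hd.continuous.comp (continuous_cR.add continuous_const)) hper
  have hcoef : ∀ n, UnitAddTorus.mFourierCoeff F n =
      a 0 * cexp (π * I * bl Z (cI n) (cI n) + 2 * π * I * dt (cI n) z) := by
    intro n
    rw [UnitAddTorus.mFourierCoeff_eq_integral F n 0]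
    have h3 : ∀ x : ι → ℝ, UnitAddTorus.mFourier (-n) (fun i => (x i : UnitAddCircle)) •
        F (fun i => (x i : UnitAddCircle)) = cexp (2 * π * I * dt (cI n) z) * φ n (cR x + z) := by
      intro x
      rw [mFourier_coe, hF, hφ, smul_eq_mul, dt_add_right]
      have h4 : dt (cI (-n)) (cR x) = -dt (cI n) (cR x) := by
        simp [dt, cI]
      have h5 : cexp (2 * π * I * dt (cI n) z) *
          (h (cR x + z) * cexp (-(2 * π * I * (dt (cI n) (cR x) + dt (cI n) z)))) =
          (cexp (2 * π * I * dt (cI n) z) *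
            cexp (-(2 * π * I * (dt (cI n) (cR x) + dt (cI n) z)))) * h (cR x + z) := by ring
      rw [h5, h4, ← Complex.exp_add]
      congr 2
      ring
    have h6 : (∫ x in {x : ι → ℝ | ∀ i, x i ∈ Ioc ((0 : ι → ℝ) i) ((0 : ι → ℝ) i + 1)},
        UnitAddTorus.mFourier (-n) (fun i => (x i : UnitAddCircle)) •
          F (fun i => (x i : UnitAddCircle))) =
        ∫ x in Box 0, cexp (2 * π * I * dt (cI n) z) * φ n (cR x + z) := by
      simp only [h3]
      rfl
    rw [h6, MeasureTheory.integral_const_mul, hshift, ha0, Complex.exp_add]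
    ring
  have hs : Summable (UnitAddTorus.mFourierCoeff F) := by
    have h3 : UnitAddTorus.mFourierCoeff F = fun n =>
        a 0 * cexp (π * I * bl Z (cI n) (cI n) + 2 * π * I * dt (cI n) z) := funext hcoef
    rw [h3]
    exact (hsum z).mul_left _
  have h3 := UnitAddTorus.hasSum_mFourier_series_apply_of_summable hs
    (fun i => ((0 : ι → ℝ) i : UnitAddCircle))
  rw [hF] at h3
  have h4 : ∀ n, UnitAddTorus.mFourierCoeff F n •
      UnitAddTorus.mFourier n (fun i => ((0 : ι → ℝ) i : UnitAddCircle)) =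
      a 0 * cexp (π * I * bl Z (cI n) (cI n) + 2 * π * I * dt (cI n) z) := by
    intro n
    rw [mFourier_coe, hcoef]
    have h5 : dt (cI n) (cR 0) = 0 := by simp [dt, cR]
    rw [h5, mul_zero, Complex.exp_zero, smul_eq_mul, mul_one]
  simp only [h4] at h3
  have h5 : cR (0 : ι → ℝ) + z = z := by
    funext i
    simp [cR]
  rw [h5] at h3
  rw [th, ← tsum_mul_left]
  exact h3.tsum_eq.symm

end Pool.Agent.Helper94.SH
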